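import Mathlib
import Pool.Agent.H.MP_9d0418_gt.Heis

set_option autoImplicit false

namespace Pool.Agent.Results.MP_9d0418_gt.Counter

open Set Topology H.MP_9d0418_gt

@[reducible] def zar (S : Type) [Semigroup S] : TopologicalSpace S :=
  TopologicalSpace.generateFrom {U | ∃ a b c d : WithOne S,
    U = {x : S | a * x * b ≠ c} ∨ U = {x : S | a * x * b ≠ c * x * d}}

lemma cont : Continuous[_, zar G] ι := by
  let _ : TopologicalSpace (ℕ →₀ K) := ⊥
  have : DiscreteTopology (ℕ →₀ K) := ⟨rfl⟩
  let φ : WithOne G →* G := WithOne.lift (MulHom.id G)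
  have h1 : ∀ (a b : WithOne G) (x : G), a * x * b = (φ a * x * φ b : G) := fun a b x => by
    induction a using WithOne.recOneCoe <;> induction b using WithOne.recOneCoe <;> simp [φ]
  have h2 : ∀ a b : G, Continuous fun f => ((a * ι f * b).v, (a * ι f * b).t) := fun a b => by
    simp only [mul_v, mul_t, ι, B_def, Finsupp.sum]
    fun_prop
  have h3 : ∀ x y : G, x = y ↔ (x.v, x.t) = (y.v, y.t) := by simp [G.ext_iff]
  refine continuous_generateFrom_iff.2 ?_
  rintro _ ⟨a, b, c, d, rfl | rfl⟩
  · induction c using WithOne.recOneCoe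
    · simp only [h1, ne_eq, WithOne.coe_ne_one, not_false_eq_true]
      exact isOpen_univ
    · simp only [h1, ne_eq, WithOne.coe_inj, h3]
      exact isOpen_ne_fun (h2 _ _) continuous_const
  · simp only [h1, ne_eq, WithOne.coe_inj, h3]
    exact isOpen_ne_fun (h2 _ _) (h2 _ _)

theorem result : ∃ (G : Type) (_ : Group G),
    (∀ F : Set G, F.Finite → F.centralizer.centralizer.Finite) ∧
      ¬ ∃ D : ℕ → Set G, (∀ k, @IsDiscrete G (zar G) (D k)) ∧ ⋃ k, D k = univ := by
  refine ⟨G, inferInstance, fin_cc, fun ⟨D, h2, h3⟩ => ?_⟩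
  have h4 : ∀ k, (ι ⁻¹' D k).Countable := fun k => by
    let _ := zar G
    have := ((h2 k).preimage cont.continuousOn ι_inj).to_subtype
    exact countable_coe_iff.1 (TopologicalSpace.separableSpace_iff_countable.1 inferInstance)
  exact not_countable_univ (by simpa [← preimage_iUnion, h3] using countable_iUnion h4)

end Pool.Agent.Results.MP_9d0418_gt.Counter
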